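import Pool.Agent.H84.FpB

namespace Pool.Agent.Results.MP_ba1c1e_lc.No

open Pool.Agent.H84.FpDefs

theorem result : ∃ F : Filter ℕ, F.NeBot ∧ F ≤ Filter.cofinite ∧ ¬ IsMeagre (Sp F) ∧
    IsEmpty (Sp F × Pos F ≃ₜ Pos F) :=
  Pool.Agent.H84.FpB.main

end Pool.Agent.Results.MP_ba1c1e_lc.No
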